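import Pool.Agent.Lib.H62u.HD.HD_Top
set_option autoImplicit false
namespace H62
theorem HD_chk1_0 : go1 (lin1 (nat_lit 1048576) (nat_lit 306870)) 9 HD_c1.a C4.c0 HD_c0.c = true := by decide +kernel
end H62
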