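import Pool.Agent.Lib.H62u.HD.HD_Top
set_option autoImplicit false
namespace H62
theorem HD_chkB_2 : blk (qmean (nat_lit 13)) 10 HD_root.c = true := by decide +kernel
end H62
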