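import Pool.Agent.Lib.H62u.HD.HD_Chk0_0
import Pool.Agent.Lib.H62u.HD.HD_Chk0_1
import Pool.Agent.Lib.H62u.HD.HD_Chk0_2
import Pool.Agent.Lib.H62u.HD.HD_Chk1_0
import Pool.Agent.Lib.H62u.HD.HD_Chk1_1
import Pool.Agent.Lib.H62u.HD.HD_Chk1_2
import Pool.Agent.Lib.H62u.HD.HD_Chk2_0
import Pool.Agent.Lib.H62u.HD.HD_Chk2_1
import Pool.Agent.Lib.H62u.HD.HD_Chk2_2
import Pool.Agent.Lib.H62u.HD.HD_ChkB_0
import Pool.Agent.Lib.H62u.HD.HD_ChkB_1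
import Pool.Agent.Lib.H62u.HD.HD_ChkB_2
set_option autoImplicit false
namespace H62
theorem HD_chk1 : go1 (lin1 (nat_lit 1048576) (nat_lit 306870)) 10 HD_c1 C4.c2 HD_c0 = true :=
  go1_split2 (n := 9) HD_c1 HD_c0 HD_chk1_0 HD_chk1_1 HD_chk1_2
theorem HD_chk2 : go2 (lin2 (nat_lit 1048576) (nat_lit 306870) (nat_lit 1479402)) 10 HD_c2 C4.c3 HD_c1 HD_root = true :=
  go2_split3 (n := 9) HD_c2 HD_c1 HD_root HD_chk2_0 HD_chk2_1 HD_chk2_2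
theorem HD_chk0 : go0 (lin2 (nat_lit 1048576) (nat_lit 306870) (nat_lit 800321)) 10 HD_c0 C4.c0 HD_c2 HD_root = true :=
  go0_split0 (n := 9) HD_c0 HD_c2 HD_root HD_chk0_0 HD_chk0_1 HD_chk0_2
theorem HD_chkB : blk (qmean (nat_lit 13)) 11 HD_root = true :=
  blk_split (n := 10) HD_root HD_chkB_0 HD_chkB_1 HD_chkB_2
end H62
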