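import Pool.Agent.Lib.H62u.HD.HD_0
import Pool.Agent.Lib.H62u.HD.HD_1
import Pool.Agent.Lib.H62u.HD.HD_2
import Pool.Agent.Lib.H62u.HD.HD_3
import Pool.Agent.Lib.H62u.HD.HD_4
import Pool.Agent.Lib.H62u.HD.HD_5
import Pool.Agent.Lib.H62u.HD.HD_6
import Pool.Agent.Lib.H62u.HD.HD_7
import Pool.Agent.Lib.H62u.HD.HD_8
set_option autoImplicit false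
set_option linter.all false
namespace H62
noncomputable def HD_c0 : (Tri (Tri (Tri (Tri (Tri (Tri (Tri (Tri (Tri (Tri B0)))))))))) := ⟨⟨⟨⟨
HD_0,HD_81,HD_162⟩,⟨
HD_27,HD_108,HD_189⟩,⟨
HD_54,HD_135,HD_216⟩⟩,⟨⟨
HD_9,HD_90,HD_171⟩,⟨
HD_36,HD_117,HD_198⟩,⟨
HD_63,HD_144,HD_225⟩⟩,⟨⟨
HD_18,HD_99,HD_180⟩,⟨
HD_45,HD_126,HD_207⟩,⟨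
HD_72,HD_153,HD_234⟩⟩⟩,⟨⟨⟨
HD_3,HD_84,HD_165⟩,⟨
HD_30,HD_111,HD_192⟩,⟨
HD_57,HD_138,HD_219⟩⟩,⟨⟨
HD_12,HD_93,HD_174⟩,⟨
HD_39,HD_120,HD_201⟩,⟨
HD_66,HD_147,HD_228⟩⟩,⟨⟨
HD_21,HD_102,HD_183⟩,⟨
HD_48,HD_129,HD_210⟩,⟨
HD_75,HD_156,HD_237⟩⟩⟩,⟨⟨⟨
HD_6,HD_87,HD_168⟩,⟨
HD_33,HD_114,HD_195⟩,⟨
HD_60,HD_141,HD_222⟩⟩,⟨⟨
HD_15,HD_96,HD_177⟩,⟨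
HD_42,HD_123,HD_204⟩,⟨
HD_69,HD_150,HD_231⟩⟩,⟨⟨
HD_24,HD_105,HD_186⟩,⟨
HD_51,HD_132,HD_213⟩,⟨
HD_78,HD_159,HD_240⟩⟩⟩⟩
noncomputable def HD_c1 : (Tri (Tri (Tri (Tri (Tri (Tri (Tri (Tri (Tri (Tri B0)))))))))) := ⟨⟨⟨⟨
HD_1,HD_82,HD_163⟩,⟨
HD_28,HD_109,HD_190⟩,⟨
HD_55,HD_136,HD_217⟩⟩,⟨⟨
HD_10,HD_91,HD_172⟩,⟨
HD_37,HD_118,HD_199⟩,⟨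
HD_64,HD_145,HD_226⟩⟩,⟨⟨
HD_19,HD_100,HD_181⟩,⟨
HD_46,HD_127,HD_208⟩,⟨
HD_73,HD_154,HD_235⟩⟩⟩,⟨⟨⟨
HD_4,HD_85,HD_166⟩,⟨
HD_31,HD_112,HD_193⟩,⟨
HD_58,HD_139,HD_220⟩⟩,⟨⟨
HD_13,HD_94,HD_175⟩,⟨
HD_40,HD_121,HD_202⟩,⟨
HD_67,HD_148,HD_229⟩⟩,⟨⟨
HD_22,HD_103,HD_184⟩,⟨
HD_49,HD_130,HD_211⟩,⟨
HD_76,HD_157,HD_238⟩⟩⟩,⟨⟨⟨
HD_7,HD_88,HD_169⟩,⟨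
HD_34,HD_115,HD_196⟩,⟨
HD_61,HD_142,HD_223⟩⟩,⟨⟨
HD_16,HD_97,HD_178⟩,⟨
HD_43,HD_124,HD_205⟩,⟨
HD_70,HD_151,HD_232⟩⟩,⟨⟨
HD_25,HD_106,HD_187⟩,⟨
HD_52,HD_133,HD_214⟩,⟨
HD_79,HD_160,HD_241⟩⟩⟩⟩
noncomputable def HD_c2 : (Tri (Tri (Tri (Tri (Tri (Tri (Tri (Tri (Tri (Tri B0)))))))))) := ⟨⟨⟨⟨
HD_2,HD_83,HD_164⟩,⟨
HD_29,HD_110,HD_191⟩,⟨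
HD_56,HD_137,HD_218⟩⟩,⟨⟨
HD_11,HD_92,HD_173⟩,⟨
HD_38,HD_119,HD_200⟩,⟨
HD_65,HD_146,HD_227⟩⟩,⟨⟨
HD_20,HD_101,HD_182⟩,⟨
HD_47,HD_128,HD_209⟩,⟨
HD_74,HD_155,HD_236⟩⟩⟩,⟨⟨⟨
HD_5,HD_86,HD_167⟩,⟨
HD_32,HD_113,HD_194⟩,⟨
HD_59,HD_140,HD_221⟩⟩,⟨⟨
HD_14,HD_95,HD_176⟩,⟨
HD_41,HD_122,HD_203⟩,⟨
HD_68,HD_149,HD_230⟩⟩,⟨⟨
HD_23,HD_104,HD_185⟩,⟨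
HD_50,HD_131,HD_212⟩,⟨
HD_77,HD_158,HD_239⟩⟩⟩,⟨⟨⟨
HD_8,HD_89,HD_170⟩,⟨
HD_35,HD_116,HD_197⟩,⟨
HD_62,HD_143,HD_224⟩⟩,⟨⟨
HD_17,HD_98,HD_179⟩,⟨
HD_44,HD_125,HD_206⟩,⟨
HD_71,HD_152,HD_233⟩⟩,⟨⟨
HD_26,HD_107,HD_188⟩,⟨
HD_53,HD_134,HD_215⟩,⟨
HD_80,HD_161,HD_242⟩⟩⟩⟩
noncomputable def HD_root : (Tri (Tri (Tri (Tri (Tri (Tri (Tri (Tri (Tri (Tri (Tri B0))))))))))) := ⟨HD_c0,HD_c1,HD_c2⟩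
end H62
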